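import Pool.Agent.J4H4.NG.Stm

/-! # Project NG of helper4: (MOB), the sieve identity (helper42) -/

set_option autoImplicit false

namespace Pool.Agent.J4H42.NG
open Complex MeasureTheory Filter Topology Set Pool.Agent.J4H4.NG

noncomputable section

/-- the terms -/
def FF (a lam v : ℝ) (k : ℕ) : ℂ := (k : ℂ) ^ (-(2 : ℂ) - I * v) *
  cexp (-(a : ℂ) * ((Real.log (k : ℝ) : ℂ) - lam - I * (Real.pi / 4)) ^ 2)

theorem FF_zero (a lam v : ℝ) : FF a lam v 0 = 0 := by
  unfold FF
  have h : (-(2 : ℂ) - I * v) ≠ 0 := by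
    intro h
    have := congrArg Complex.re h
    simp at this
  rw [Nat.cast_zero, Complex.zero_cpow h, zero_mul]

theorem FF_succ (a lam v : ℝ) (n : ℕ) : FF a lam v (n + 1) = ((n : ℂ) + 1) ^ (-(2 : ℂ) - I * v) *
    cexp (-(a : ℂ) * ((Real.log ((n : ℝ) + 1) : ℂ) - lam - I * (Real.pi / 4)) ^ 2) := by
  unfold FF
  push_cast
  rfl

theorem FF_norm {a : ℝ} (lam v : ℝ) (ha : 0 < a) (k : ℕ) :
    ‖FF a lam v k‖ ≤ Real.exp (a * Real.pi ^ 2 / 16) * (1 / (k : ℝ) ^ 2) := by
  rcases Nat.eq_zero_or_pos k with rfl | hk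
  · rw [FF_zero, norm_zero]; positivity
  · unfold FF
    rw [norm_mul, Complex.norm_natCast_cpow_of_pos hk, Complex.norm_exp, mul_comm]
    have h1 : (-(2 : ℂ) - I * v).re = -2 := by simp
    have h2 : (-(a : ℂ) * ((Real.log (k : ℝ) : ℂ) - lam - I * (Real.pi / 4)) ^ 2).re ≤ a * Real.pi ^ 2 / 16 := by
      have h3 : -(a : ℂ) * ((Real.log (k : ℝ) : ℂ) - lam - I * (Real.pi / 4)) ^ 2 =
          ((-a * ((Real.log k - lam) ^ 2 - Real.pi ^ 2 / 16) : ℝ) : ℂ) + ((a * (Real.log k - lam) * (Real.pi / 2) : ℝ) : ℂ) * I := by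
        push_cast
        ring_nf
        rw [Complex.I_sq]
        ring
      rw [h3, Complex.add_re, Complex.ofReal_re, Complex.re_ofReal_mul, Complex.I_re, mul_zero, add_zero]
      nlinarith [mul_nonneg ha.le (sq_nonneg (Real.log k - lam))]
    rw [h1, Real.rpow_neg (Nat.cast_nonneg k)]
    have h4 : (k : ℝ) ^ (2 : ℝ) = (k : ℝ) ^ 2 := by
      rw [← Real.rpow_natCast]; norm_num
    rw [h4, one_div]
    exact mul_le_mul_of_nonneg_right (Real.exp_le_exp.2 h2) (by positivity)

theorem FF_summable {a : ℝ} (lam v : ℝ) (ha : 0 < a) : Summable (FF a lam v) :=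
  Summable.of_norm_bounded ((Real.summable_one_div_nat_pow.2 (by norm_num : 1 < 2)).mul_left _) (FF_norm lam v ha)

theorem FF_ite_summable {a : ℝ} (lam v : ℝ) (ha : 0 < a) (p : ℕ → Prop) [DecidablePred p] :
    Summable (fun k => if p k then FF a lam v k else 0) := by
  refine Summable.of_norm_bounded ((Real.summable_one_div_nat_pow.2 (by norm_num : 1 < 2)).mul_left (Real.exp (a * Real.pi ^ 2 / 16))) (fun k => ?_)
  split_ifs
  · exact FF_norm lam v ha k
  · rw [norm_zero]; positivity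

theorem tsum_shift {f : ℕ → ℂ} (hf : Summable f) (h0 : f 0 = 0) : ∑' n, f (n + 1) = ∑' n, f n := by
  rw [hf.tsum_eq_zero_add, h0, zero_add]

/-- the multiples of `b` -/
theorem DD_mult {a : ℝ} (lam v : ℝ) (ha : 0 < a) {b : ℕ} (hb : 0 < b) :
    (b : ℂ) ^ (-(2 : ℂ) - I * v) * DD a (lam - Real.log b) v = ∑' k : ℕ, if b ∣ k then FF a lam v k else 0 := by
  have h1 : (b : ℂ) ^ (-(2 : ℂ) - I * v) * DD a (lam - Real.log b) v = ∑' n : ℕ, FF a lam v (b * (n + 1)) := by
    unfold DD
    rw [← tsum_mul_left]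
    refine tsum_congr (fun n => ?_)
    unfold FF
    have h2 : (((b * (n + 1) : ℕ)) : ℂ) = (b : ℂ) * ((n + 1 : ℕ) : ℂ) := by push_cast; ring
    rw [h2, Complex.natCast_mul_natCast_cpow]
    have h3 : Real.log ((b * (n + 1) : ℕ) : ℝ) = Real.log b + Real.log ((n : ℝ) + 1) := by
      push_cast
      rw [Real.log_mul (by positivity) (by positivity)]
    rw [h3]
    push_cast
    rw [mul_assoc]
    congr 3
    ring
  have hinj : Function.Injective (fun m : ℕ => b * m) := fun x y h => Nat.eq_of_mul_eq_mul_left hb h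
  have hs : Summable (fun m : ℕ => FF a lam v (b * m)) := (FF_summable lam v ha).comp_injective hinj
  have h4 : ∑' n : ℕ, FF a lam v (b * (n + 1)) = ∑' m : ℕ, FF a lam v (b * m) :=
    tsum_shift (f := fun m => FF a lam v (b * m)) hs (by rw [mul_zero, FF_zero])
  rw [h1, h4]
  have h5 := hinj.tsum_eq (f := fun k => if b ∣ k then FF a lam v k else 0) (by
    intro k hk
    rw [Function.mem_support] at hk
    by_cases hbk : b ∣ k
    · obtain ⟨m, rfl⟩ := hbk
      exact ⟨m, rfl⟩
    · rw [if_neg hbk] at hk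
      exact absurd rfl hk)
  rw [← h5]
  refine tsum_congr (fun m => ?_)
  rw [if_pos (Dvd.intro m rfl)]

theorem rough_iff (z k : ℕ) : Rough z k ↔ Nat.gcd (primorial z) k = 1 := by
  unfold primorial
  rw [← Nat.coprime_iff_gcd_eq_one, Nat.coprime_prod_left_iff]
  constructor
  · intro h q hq
    rw [Finset.mem_filter, Finset.mem_range] at hq
    exact (Nat.Prime.coprime_iff_not_dvd hq.2).2 (h q hq.2 (by omega))
  · intro h q hq hqz
    exact (Nat.Prime.coprime_iff_not_dvd hq).1 (h q (Finset.mem_filter.2 ⟨Finset.mem_range.2 (by omega), hq⟩))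

theorem mob_sum (z k : ℕ) : ∑ b ∈ (primorial z).divisors, (if b ∣ k then ArithmeticFunction.moebius b else 0) =
    if Nat.gcd (primorial z) k = 1 then 1 else 0 := by
  rw [← Finset.sum_filter]
  have h1 : (primorial z).divisors.filter (fun b => b ∣ k) = (Nat.gcd (primorial z) k).divisors := by
    ext b
    rw [Finset.mem_filter, Nat.mem_divisors, Nat.mem_divisors, Nat.dvd_gcd_iff]
    have hp : primorial z ≠ 0 := (primorial_pos z).ne'
    have hg : Nat.gcd (primorial z) k ≠ 0 := fun h => hp (Nat.eq_zero_of_gcd_eq_zero_left h)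
    tauto
  rw [h1, ← ArithmeticFunction.coe_mul_zeta_apply, ArithmeticFunction.moebius_mul_coe_zeta, ArithmeticFunction.one_apply]

theorem t_MOB : S_MOB := by
  intro a lam v z ha
  classical
  have hR : ∑' n : ℕ, (if Rough z (n + 1) then ((n : ℂ) + 1) ^ (-(2 : ℂ) - I * v) *
      cexp (-(a : ℂ) * ((Real.log ((n : ℝ) + 1) : ℂ) - lam - I * (Real.pi / 4)) ^ 2) else 0) =
      ∑' k : ℕ, if Rough z k then FF a lam v k else 0 := by
    rw [← tsum_shift (FF_ite_summable lam v ha _) (by rw [FF_zero, ite_self])]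
    refine tsum_congr (fun n => ?_)
    rw [FF_succ]
  rw [hR]
  have h1 : ∀ b ∈ (primorial z).divisors, (ArithmeticFunction.moebius b : ℂ) * (b : ℂ) ^ (-(2 : ℂ) - I * v) * DD a (lam - Real.log b) v =
      ∑' k : ℕ, (ArithmeticFunction.moebius b : ℂ) * (if b ∣ k then FF a lam v k else 0) := by
    intro b hb
    rw [mul_assoc, DD_mult lam v ha (Nat.pos_of_mem_divisors hb), tsum_mul_left]
  rw [Finset.sum_congr rfl h1, ← Summable.tsum_finsetSum (fun b _ => (FF_ite_summable lam v ha _).mul_left _)]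
  refine tsum_congr (fun k => ?_)
  have h2 : ∑ b ∈ (primorial z).divisors, (ArithmeticFunction.moebius b : ℂ) * (if b ∣ k then FF a lam v k else 0) =
      ((∑ b ∈ (primorial z).divisors, (if b ∣ k then ArithmeticFunction.moebius b else 0) : ℤ) : ℂ) * FF a lam v k := by
    rw [Int.cast_sum, Finset.sum_mul]
    refine Finset.sum_congr rfl (fun b _ => ?_)
    split_ifs
    · rfl
    · simp
  rw [h2, mob_sum]
  by_cases hr : Rough z k
  · rw [if_pos hr, if_pos ((rough_iff z k).1 hr)]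
    simp
  · rw [if_neg hr, if_neg (fun h => hr ((rough_iff z k).2 h))]
    simp

end

end Pool.Agent.J4H42.NG
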