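import Pool.Agent.J4H4.NG.Stm

/-! # Project NG of helper4: (MS), the mean square (helper42) -/

set_option autoImplicit false

namespace Pool.Agent.J4H42.NG
open Complex MeasureTheory Filter Topology Set Pool.Agent.J4H4.NG

/-- the majorant -/
noncomputable def ga (T v : ℝ) : ℝ := Real.exp (-((v - 3 * T / 2) / T) ^ 2)

theorem ga_int {T : ℝ} (hT : 0 < T) : Integrable (ga T) := by
  have h1 := (integrable_exp_neg_mul_sq (b := (T ^ 2)⁻¹) (by positivity)).comp_sub_right (3 * T / 2)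
  refine h1.congr (Eventually.of_forall (fun v => ?_))
  show Real.exp (-(T ^ 2)⁻¹ * (v - 3 * T / 2) ^ 2) = ga T v
  unfold ga
  congr 1
  field_simp

theorem ga_cont {T : ℝ} : Continuous (ga T) := by
  unfold ga; fun_prop

/-- the Fourier transform of the majorant -/
theorem ga_four {T : ℝ} (hT : 0 < T) (w : ℝ) :
    ‖∫ v : ℝ, ((ga T v : ℝ) : ℂ) * cexp (I * (w * v))‖ = T * Real.sqrt Real.pi * Real.exp (-(T * w) ^ 2 / 4) := by
  have hTc : (T : ℂ) ≠ 0 := by exact_mod_cast hT.ne'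
  have h1 : ∀ v : ℝ, ((ga T v : ℝ) : ℂ) * cexp (I * (w * v)) =
      cexp ((-(T : ℂ) ^ 2)⁻¹ * v ^ 2 + (3 / T + I * w) * v + (-(9 / 4))) := by
    intro v
    unfold ga
    push_cast
    rw [← Complex.exp_add]
    congr 1
    field_simp
    ring
  have hre : ((-(T : ℂ) ^ 2)⁻¹).re < 0 := by
    have : ((-(T : ℂ) ^ 2)⁻¹) = ((-(T ^ 2)⁻¹ : ℝ) : ℂ) := by
      push_cast
      rw [inv_neg]
    rw [this, Complex.ofReal_re]
    have : 0 < (T ^ 2)⁻¹ := by positivity
    linarith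
  rw [integral_congr_ae (Eventually.of_forall h1), integral_cexp_quadratic hre]
  have h2 : (Real.pi : ℂ) / -(-(T : ℂ) ^ 2)⁻¹ = ((Real.pi * T ^ 2 : ℝ) : ℂ) := by
    push_cast
    rw [inv_neg, neg_neg, div_inv_eq_mul]
  have h3 : -(9 / 4) - (3 / (T : ℂ) + I * w) ^ 2 / (4 * (-(T : ℂ) ^ 2)⁻¹) =
      ((-(T * w) ^ 2 / 4 : ℝ) : ℂ) + ((3 / 2 * T * w : ℝ) : ℂ) * I := by
    push_cast
    field_simp
    ring_nf
    rw [Complex.I_sq]
    ring
  rw [h2, h3, norm_mul, Complex.norm_exp]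
  have h4 : (((-(T * w) ^ 2 / 4 : ℝ) : ℂ) + ((3 / 2 * T * w : ℝ) : ℂ) * I).re = -(T * w) ^ 2 / 4 := by
    rw [Complex.add_re, Complex.ofReal_re, Complex.re_ofReal_mul, Complex.I_re]
    ring
  rw [h4]
  congr 1
  rw [show (1 / 2 : ℂ) = ((1 / 2 : ℝ) : ℂ) by push_cast; ring, Complex.norm_cpow_eq_rpow_re_of_pos (by positivity), Complex.ofReal_re,
    ← Real.sqrt_eq_rpow, Real.sqrt_mul Real.pi_pos.le, Real.sqrt_sq hT.le]
  ring

theorem t_MS : S_MS := by
  intro ι _ J om A T D hT hD hsp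
  have hT0 : 0 < T := by linarith
  set f : ℝ → ℂ := fun v => ∑ j ∈ J, A j * cexp (I * (om j * v)) with hf
  have hfc : Continuous f := by
    rw [hf]; fun_prop
  have hfb : ∀ v, ‖f v‖ ≤ ∑ j ∈ J, ‖A j‖ := by
    intro v
    refine (norm_sum_le _ _).trans (Finset.sum_le_sum (fun j _ => ?_))
    rw [norm_mul, show I * ((om j : ℂ) * v) = ((om j * v : ℝ) : ℂ) * I by push_cast; ring, Complex.norm_exp_ofReal_mul_I, mul_one]
  set M : ℝ := ∑ j ∈ J, ‖A j‖ with hM
  have hM0 : 0 ≤ M := Finset.sum_nonneg (fun j _ => norm_nonneg _)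
  have hint : Integrable (fun v => ga T v * ‖f v‖ ^ 2) := by
    refine Integrable.mono' ((ga_int hT0).mul_const (M ^ 2)) ?_ (Eventually.of_forall (fun v => ?_))
    · exact (ga_cont.mul (hfc.norm.pow 2)).aestronglyMeasurable
    · have h1 : 0 ≤ ga T v := (Real.exp_pos _).le
      rw [norm_mul, Real.norm_of_nonneg h1, norm_pow, norm_norm]
      have := pow_le_pow_left₀ (norm_nonneg (f v)) (hfb v) 2
      gcongr
  -- the first step
  have hstep1 : ∫ v in T..2 * T, ‖f v‖ ^ 2 ≤ Real.exp (1 / 4) * ∫ v : ℝ, ga T v * ‖f v‖ ^ 2 := by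
    rw [intervalIntegral.integral_of_le (by linarith), ← integral_const_mul]
    have h1 : ∫ v in Ioc T (2 * T), ‖f v‖ ^ 2 ≤ ∫ v in Ioc T (2 * T), Real.exp (1 / 4) * (ga T v * ‖f v‖ ^ 2) := by
      refine setIntegral_mono_on ?_ (hint.const_mul _).integrableOn measurableSet_Ioc (fun v hv => ?_)
      · exact (hfc.norm.pow 2).continuousOn.integrableOn_Icc.mono_set Ioc_subset_Icc_self
      · have h2 : 1 ≤ Real.exp (1 / 4) * ga T v := by
          unfold ga
          rw [← Real.exp_add]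
          apply Real.one_le_exp
          have h3 : |(v - 3 * T / 2) / T| ≤ 1 / 2 := by
            rw [abs_div, abs_of_pos hT0, div_le_iff₀ hT0, abs_le]
            constructor <;> [linarith [hv.1]; linarith [hv.2]]
          have h4 : ((v - 3 * T / 2) / T) ^ 2 ≤ (1 / 2) ^ 2 := by
            rw [← sq_abs]
            exact pow_le_pow_left₀ (abs_nonneg _) h3 2
          linarith
        have h5 : 0 ≤ ‖f v‖ ^ 2 := by positivity
        calc ‖f v‖ ^ 2 = 1 * ‖f v‖ ^ 2 := by ring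
          _ ≤ Real.exp (1 / 4) * ga T v * ‖f v‖ ^ 2 := mul_le_mul_of_nonneg_right h2 h5
          _ = _ := by ring
    refine h1.trans (setIntegral_le_integral (hint.const_mul _) (Eventually.of_forall (fun v => ?_)))
    show 0 ≤ Real.exp (1 / 4) * (ga T v * ‖f v‖ ^ 2)
    have : 0 ≤ ga T v := (Real.exp_pos _).le
    positivity
  -- the double sum
  have hcast : ((∫ v : ℝ, ga T v * ‖f v‖ ^ 2 : ℝ) : ℂ) =
      ∑ i ∈ J, ∑ j ∈ J, A i * (starRingEnd ℂ) (A j) * ∫ v : ℝ, ((ga T v : ℝ) : ℂ) * cexp (I * (((om i - om j : ℝ) : ℂ) * v)) := by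
    rw [← integral_complex_ofReal]
    have h1 : ∀ v : ℝ, ((ga T v * ‖f v‖ ^ 2 : ℝ) : ℂ) =
        ∑ i ∈ J, ∑ j ∈ J, A i * (starRingEnd ℂ) (A j) * (((ga T v : ℝ) : ℂ) * cexp (I * (((om i - om j : ℝ) : ℂ) * v))) := by
      intro v
      have h2 : ((‖f v‖ ^ 2 : ℝ) : ℂ) = f v * (starRingEnd ℂ) (f v) := by
        rw [Complex.mul_conj, Complex.normSq_eq_norm_sq]
      rw [Complex.ofReal_mul, h2, hf]
      simp only [map_sum, map_mul]
      rw [Finset.sum_mul_sum, Finset.mul_sum]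
      refine Finset.sum_congr rfl (fun i _ => ?_)
      rw [Finset.mul_sum]
      refine Finset.sum_congr rfl (fun j _ => ?_)
      have h3 : (starRingEnd ℂ) (cexp (I * ((om j : ℂ) * v))) = cexp (-(I * ((om j : ℂ) * v))) := by
        rw [← Complex.exp_conj]
        congr 1
        simp
      have h4 : cexp (I * (((om i - om j : ℝ) : ℂ) * v)) = cexp (I * ((om i : ℂ) * v)) * cexp (-(I * ((om j : ℂ) * v))) := by
        rw [← Complex.exp_add]
        congr 1
        push_cast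
        ring
      rw [h3, h4]
      ring
    rw [integral_congr_ae (Eventually.of_forall h1)]
    have hgi : ∀ w : ℝ, Integrable (fun v : ℝ => ((ga T v : ℝ) : ℂ) * cexp (I * ((w : ℂ) * v))) := by
      intro w
      refine Integrable.mono' (ga_int hT0) ?_ (Eventually.of_forall (fun v => ?_))
      · exact ((Complex.continuous_ofReal.comp ga_cont).mul (by fun_prop)).aestronglyMeasurable
      · rw [norm_mul, Complex.norm_real, Real.norm_of_nonneg (show (0 : ℝ) ≤ ga T v from (Real.exp_pos _).le),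
          show I * ((w : ℂ) * v) = ((w * v : ℝ) : ℂ) * I by push_cast; ring, Complex.norm_exp_ofReal_mul_I, mul_one]
    rw [integral_finsetSum _ (fun i _ => integrable_finsetSum _ (fun j _ => (hgi _).const_mul _))]
    refine Finset.sum_congr rfl (fun i _ => ?_)
    rw [integral_finsetSum _ (fun j _ => (hgi _).const_mul _)]
    refine Finset.sum_congr rfl (fun j _ => ?_)
    rw [integral_const_mul]
  have h0 : 0 ≤ ∫ v : ℝ, ga T v * ‖f v‖ ^ 2 :=
    integral_nonneg (fun v => mul_nonneg (Real.exp_pos _).le (by positivity))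
  set q : ℝ := Real.exp (-(T * D) ^ 2 / 4) with hq
  have hbound : ∫ v : ℝ, ga T v * ‖f v‖ ^ 2 ≤ T * Real.sqrt Real.pi * (∑ j ∈ J, ‖A j‖ ^ 2 + q * M ^ 2) := by
    have h1 : ∫ v : ℝ, ga T v * ‖f v‖ ^ 2 = ‖((∫ v : ℝ, ga T v * ‖f v‖ ^ 2 : ℝ) : ℂ)‖ := by
      rw [Complex.norm_real, Real.norm_of_nonneg h0]
    rw [h1, hcast]
    have h2 : ∀ i ∈ J, ∀ j ∈ J, ‖A i * (starRingEnd ℂ) (A j) * ∫ v : ℝ, ((ga T v : ℝ) : ℂ) * cexp (I * (((om i - om j : ℝ) : ℂ) * v))‖ ≤
        T * Real.sqrt Real.pi * ((if i = j then ‖A i‖ ^ 2 else 0) + q * (‖A i‖ * ‖A j‖)) := by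
      intro i hi j hj
      rw [norm_mul, norm_mul, RCLike.norm_conj, ga_four hT0]
      have hq0 : 0 < q := Real.exp_pos _
      have hs : 0 ≤ T * Real.sqrt Real.pi := by positivity
      by_cases hij : i = j
      · subst hij
        rw [if_pos rfl, sub_self, mul_zero]
        have : 0 ≤ q * (‖A i‖ * ‖A i‖) := by positivity
        have e : Real.exp (-(0 : ℝ) ^ 2 / 4) = 1 := by norm_num
        rw [e]
        nlinarith
      · rw [if_neg hij, zero_add]
        have h3 := hsp i hi j hj hij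
        have h4 : Real.exp (-(T * (om i - om j)) ^ 2 / 4) ≤ q := by
          rw [hq]
          apply Real.exp_le_exp.2
          have h5 : (T * D) ^ 2 ≤ (T * (om i - om j)) ^ 2 := by
            rw [mul_pow, mul_pow, ← sq_abs (om i - om j)]
            have := pow_le_pow_left₀ hD h3 2
            gcongr
          linarith
        calc ‖A i‖ * ‖A j‖ * (T * Real.sqrt Real.pi * Real.exp (-(T * (om i - om j)) ^ 2 / 4))
            ≤ ‖A i‖ * ‖A j‖ * (T * Real.sqrt Real.pi * q) := by gcongr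
          _ = _ := by ring
    refine (norm_sum_le _ _).trans ((Finset.sum_le_sum (fun i hi => (norm_sum_le _ _).trans (Finset.sum_le_sum (fun j hj => h2 i hi j hj)))).trans
      (le_of_eq ?_))
    simp_rw [← Finset.mul_sum, Finset.sum_add_distrib]
    congr 2
    · refine Finset.sum_congr rfl (fun i hi => ?_)
      rw [Finset.sum_ite_eq J i, if_pos hi]
    · simp_rw [← Finset.mul_sum]
      rw [← Finset.sum_mul, ← hM]
      ring
  have hconst : Real.exp (1 / 4) * Real.sqrt Real.pi ≤ 3 := by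
    have h1 : Real.exp (1 / 4) ≤ 3 / 2 := by
      have h2 := Real.exp_bound' (x := 1 / 4) (by norm_num) (by norm_num) (n := 3) (by norm_num)
      refine h2.trans ?_
      norm_num [Finset.sum_range_succ, Nat.factorial]
    have h2 : Real.sqrt Real.pi ≤ 2 := by
      rw [Real.sqrt_le_left (by norm_num)]
      linarith [Real.pi_le_four]
    have h3 : 0 ≤ Real.sqrt Real.pi := Real.sqrt_nonneg _
    nlinarith [Real.exp_pos (1 / 4 : ℝ)]
  have hX : 0 ≤ ∑ j ∈ J, ‖A j‖ ^ 2 + q * M ^ 2 := by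
    have : 0 ≤ ∑ j ∈ J, ‖A j‖ ^ 2 := Finset.sum_nonneg (fun j _ => by positivity)
    have : 0 < q := Real.exp_pos _
    positivity
  calc ∫ v in T..2 * T, ‖f v‖ ^ 2 ≤ Real.exp (1 / 4) * ∫ v : ℝ, ga T v * ‖f v‖ ^ 2 := hstep1
    _ ≤ Real.exp (1 / 4) * (T * Real.sqrt Real.pi * (∑ j ∈ J, ‖A j‖ ^ 2 + q * M ^ 2)) :=
        mul_le_mul_of_nonneg_left hbound (Real.exp_pos _).le
    _ = (Real.exp (1 / 4) * Real.sqrt Real.pi) * (T * (∑ j ∈ J, ‖A j‖ ^ 2 + q * M ^ 2)) := by ring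
    _ ≤ 3 * (T * (∑ j ∈ J, ‖A j‖ ^ 2 + q * M ^ 2)) := mul_le_mul_of_nonneg_right hconst (by positivity)
    _ = _ := by ring

end Pool.Agent.J4H42.NG
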