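import Pool.Agent.J4H42.NG.Mob

/-! # Project NG of helper4: (G7), the finite sieved sum is small if the `DD` are (helper42) -/

set_option autoImplicit false

namespace Pool.Agent.J4H42.NG
open Complex MeasureTheory Filter Topology Set Pool.Agent.J4H4.NG

noncomputable section

theorem FF_norm_eq (a lam v : ℝ) {k : ℕ} (hk : 0 < k) : ‖FF a lam v k‖ = Real.exp (a * Real.pi ^ 2 / 16) * amp a lam k := by
  unfold FF amp
  rw [norm_mul, Complex.norm_natCast_cpow_of_pos hk, Complex.norm_exp]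
  have h1 : (-(2 : ℂ) - I * v).re = -2 := by simp
  have h2 : (-(a : ℂ) * ((Real.log (k : ℝ) : ℂ) - lam - I * (Real.pi / 4)) ^ 2).re = a * Real.pi ^ 2 / 16 + -a * (Real.log k - lam) ^ 2 := by
    have h3 : -(a : ℂ) * ((Real.log (k : ℝ) : ℂ) - lam - I * (Real.pi / 4)) ^ 2 =
        ((a * Real.pi ^ 2 / 16 + -a * (Real.log k - lam) ^ 2 : ℝ) : ℂ) + ((a * (Real.log k - lam) * (Real.pi / 2) : ℝ) : ℂ) * I := by
      push_cast
      ring_nf
      rw [Complex.I_sq]
      ring
    rw [h3, Complex.add_re, Complex.ofReal_re, Complex.re_ofReal_mul, Complex.I_re, mul_zero, add_zero]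
  rw [h1, h2, Real.exp_add, Real.rpow_neg (Nat.cast_nonneg k)]
  have h4 : (k : ℝ) ^ (2 : ℝ) = (k : ℝ) ^ 2 := by
    rw [← Real.rpow_natCast]; norm_num
  rw [h4]
  ring

open Classical in
/-- (G7) -/
theorem G7 {a lam mu y v : ℝ} (ha : 0 < a) (hlam : 0 ≤ lam) (hmu : 0 < mu) (z : ℕ)
    (hy : ∀ b : ℕ, 1 ≤ b → b ≤ primorial z → ‖DD a (lam - Real.log b) v‖ < y) :
    ‖∑ n ∈ Finset.range ⌊Real.exp ((1 + mu) * lam)⌋₊, (if Rough z (n + 1) then FF a lam v (n + 1) else 0)‖ ≤
      primorial z * y + 2 * Real.exp (a * Real.pi ^ 2 / 16) * Real.exp (-a * (mu * lam) ^ 2) := by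
  set K : ℕ := ⌊Real.exp ((1 + mu) * lam)⌋₊ with hK
  set f : ℕ → ℂ := fun n => if Rough z (n + 1) then FF a lam v (n + 1) else 0 with hf
  have hfs : Summable f := by
    have := (FF_ite_summable lam v ha (fun k => Rough z k)).comp_injective (add_left_injective 1)
    exact this
  have hy0 : 0 ≤ y := (norm_nonneg _).trans (hy 1 le_rfl (primorial_pos z)).le
  -- the whole sum
  have hmain : ‖∑' n, f n‖ ≤ primorial z * y := by
    have h1 : ∑' n, f n = ∑ b ∈ (primorial z).divisors, (ArithmeticFunction.moebius b : ℂ) * (b : ℂ) ^ (-(2 : ℂ) - I * v) *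
        DD a (lam - Real.log b) v := by
      rw [t_MOB a lam v z ha]
      refine tsum_congr (fun n => ?_)
      rw [hf]
      simp only
      rw [FF_succ]
    rw [h1]
    have h2 : ∀ b ∈ (primorial z).divisors, ‖(ArithmeticFunction.moebius b : ℂ) * (b : ℂ) ^ (-(2 : ℂ) - I * v) *
        DD a (lam - Real.log b) v‖ ≤ y := by
      intro b hb
      have hb0 : 0 < b := Nat.pos_of_mem_divisors hb
      have h3 := hy b hb0 (Nat.divisor_le hb)
      have h4 : ‖(ArithmeticFunction.moebius b : ℂ)‖ ≤ 1 := by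
        have := ArithmeticFunction.abs_moebius_le_one (n := b)
        rw [Complex.norm_intCast]
        exact_mod_cast this
      have h5 : ‖(b : ℂ) ^ (-(2 : ℂ) - I * v)‖ ≤ 1 := by
        rw [Complex.norm_natCast_cpow_of_pos hb0]
        have h6 : (-(2 : ℂ) - I * v).re = -2 := by simp
        rw [h6]
        exact Real.rpow_le_one_of_one_le_of_nonpos (by exact_mod_cast hb0) (by norm_num)
      rw [norm_mul, norm_mul]
      calc ‖(ArithmeticFunction.moebius b : ℂ)‖ * ‖(b : ℂ) ^ (-(2 : ℂ) - I * v)‖ * ‖DD a (lam - Real.log b) v‖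
          ≤ 1 * 1 * y := by gcongr
        _ = y := by ring
    refine (norm_sum_le _ _).trans ((Finset.sum_le_sum h2).trans ?_)
    rw [Finset.sum_const, nsmul_eq_mul]
    have h7 : ((primorial z).divisors.card : ℝ) ≤ primorial z := by exact_mod_cast Nat.card_divisors_le_self _
    exact mul_le_mul_of_nonneg_right h7 hy0
  -- the tail
  set c : ℝ := Real.exp (a * Real.pi ^ 2 / 16) * Real.exp (-a * (mu * lam) ^ 2) with hc
  have hc0 : 0 < c := by positivity
  have htail : ‖∑' i, f (i + K)‖ ≤ 2 * c := by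
    have hz : HasSum (fun i : ℕ => c * (1 / ((i + 1 : ℕ) : ℝ) ^ 2)) (c * (Real.pi ^ 2 / 6)) := by
      have h1 := (hasSum_nat_add_iff' (f := fun n : ℕ => 1 / (n : ℝ) ^ 2) 1).2 hasSum_zeta_two
      have h2 : Real.pi ^ 2 / 6 - ∑ i ∈ Finset.range 1, 1 / ((i : ℕ) : ℝ) ^ 2 = Real.pi ^ 2 / 6 := by
        simp
      rw [h2] at h1
      exact h1.mul_left c
    have h3 : ‖∑' i, f (i + K)‖ ≤ c * (Real.pi ^ 2 / 6) := by
      refine tsum_of_norm_bounded hz (fun i => ?_)
      rw [hf]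
      simp only
      split_ifs
      · rw [FF_norm_eq a lam v (Nat.succ_pos _)]
        unfold amp
        have hk1 : Real.exp ((1 + mu) * lam) < ((i + K + 1 : ℕ) : ℝ) := by
          have h4 := Nat.lt_floor_add_one (Real.exp ((1 + mu) * lam))
          rw [← hK] at h4
          push_cast
          have : (0 : ℝ) ≤ i := Nat.cast_nonneg i
          linarith
        have hk2 : (1 + mu) * lam < Real.log ((i + K + 1 : ℕ) : ℝ) := by
          rw [Real.lt_log_iff_exp_lt (by positivity)]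
          exact hk1
        have h5 : (mu * lam) ^ 2 ≤ (Real.log ((i + K + 1 : ℕ) : ℝ) - lam) ^ 2 := by
          have h6 : 0 ≤ mu * lam := by positivity
          exact pow_le_pow_left₀ h6 (by linarith) 2
        have h7 : Real.exp (-a * (Real.log ((i + K + 1 : ℕ) : ℝ) - lam) ^ 2) ≤ Real.exp (-a * (mu * lam) ^ 2) := by
          apply Real.exp_le_exp.2
          nlinarith
        have h8 : (((i + K + 1 : ℕ) : ℝ) ^ 2)⁻¹ ≤ 1 / ((i + 1 : ℕ) : ℝ) ^ 2 := by
          rw [one_div]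
          apply inv_anti₀ (by positivity)
          apply pow_le_pow_left₀ (by positivity)
          have : i + 1 ≤ i + K + 1 := by omega
          exact_mod_cast this
        calc Real.exp (a * Real.pi ^ 2 / 16) * ((((i + K + 1 : ℕ) : ℝ) ^ 2)⁻¹ * Real.exp (-a * (Real.log ((i + K + 1 : ℕ) : ℝ) - lam) ^ 2))
            ≤ Real.exp (a * Real.pi ^ 2 / 16) * (1 / ((i + 1 : ℕ) : ℝ) ^ 2 * Real.exp (-a * (mu * lam) ^ 2)) := by gcongr
          _ = c * (1 / ((i + 1 : ℕ) : ℝ) ^ 2) := by rw [hc]; ring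
      · rw [norm_zero]; positivity
    have h9 : Real.pi ^ 2 / 6 ≤ 2 := by nlinarith [Real.pi_lt_d2, Real.pi_pos]
    calc ‖∑' i, f (i + K)‖ ≤ c * (Real.pi ^ 2 / 6) := h3
      _ ≤ c * 2 := mul_le_mul_of_nonneg_left h9 hc0.le
      _ = 2 * c := by ring
  have hsplit : ∑ n ∈ Finset.range K, f n = ∑' n, f n - ∑' i, f (i + K) := by
    rw [← hfs.sum_add_tsum_nat_add K]
    ring
  rw [hsplit]
  calc ‖∑' n, f n - ∑' i, f (i + K)‖ ≤ ‖∑' n, f n‖ + ‖∑' i, f (i + K)‖ := norm_sub_le _ _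
    _ ≤ primorial z * y + 2 * c := add_le_add hmain htail
    _ = _ := by rw [hc]; ring

end

end Pool.Agent.J4H42.NG
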